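import Pool.Agent.HA48.GDB.Core

/-!
# Balanced generalized de Bruijn sequences over alphabets of every size

`IsGDB a l k`: in the cyclic sequence `a` of length `n` every word of length `l` occurs at no more
than `k` starting positions.  `Balanced a`: every letter occurs `n / m` times, where `m` is the size
of the alphabet.

Idea of proof.  Let `p ≤ l` be as large as possible with `m ^ p ≤ n`, and `q = ⌊n / m ^ p⌋`.  The
words whose difference word lies in a given circulation of the de Bruijn graph form a circulation
which is invariant under the addition of constants; this and the loops give, by induction,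
circulations of all sizes, and balanced circulations of all sizes divisible by `m`.  So there is a
balanced circulation `E` on the words of length `p` of size `n - q * m ^ p`.  Every word of length
`p` is to be used `q` times, those of `E` once more.  A family of closed walks with these
multiplicities, in which the `(p+1)`-letter words are distinct if `q < m`, is written down
explicitly, and two of them can always be joined without destroying this property, because the
words of length `p` are all used.
-/

set_option autoImplicit false

namespace Pool.Agent.Results.MP_a9eae2_co.AllParameters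

open Finset Pool.Agent.HA48.GDB

/-- The cyclic sequence `a` of length `n` is a generalized de Bruijn sequence with parameters
`(n, l, k)`: every word of length `l` occurs at no more than `k` starting positions. -/
def IsGDB {A : Type} {n : ℕ} (a : ZMod n → A) (l k : ℕ) : Prop :=
  ∀ w : Fin l → A, {i : ZMod n | ∀ j : Fin l, a (i + ((j : ℕ) : ZMod n)) = w j}.ncard ≤ k

/-- Every letter of `A` occurs exactly `n / |A|` times in the cyclic sequence `a` of length `n`. -/
def Balanced {A : Type} {n : ℕ} (a : ZMod n → A) : Prop :=
  ∀ x : A, Nat.card A * {i : ZMod n | a i = x}.ncard = n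

/-- For every finite alphabet `A` with at least two letters and all positive `n, l, k`, there is an
`A`-balanced generalized de Bruijn sequence with parameters `(n, l, k)` if and only if `|A|` divides
`n` and `k ≥ n / |A| ^ l`. -/
theorem result (A : Type) [Finite A] (hA : 2 ≤ Nat.card A) (n l k : ℕ) (hn : 1 ≤ n) (hl : 1 ≤ l)
    (hk : 1 ≤ k) :
    (∃ a : ZMod n → A, Balanced a ∧ IsGDB a l k) ↔
      Nat.card A ∣ n ∧ (n : ℚ) / (Nat.card A : ℚ) ^ l ≤ k := by
  classical
  have : Fintype A := Fintype.ofFinite A
  have : NeZero n := ⟨by omega⟩
  obtain ⟨m, hmA⟩ : ∃ m, Nat.card A = m := ⟨_, rfl⟩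
  have hm2 : 2 ≤ m := hmA ▸ hA
  have : NeZero m := ⟨by omega⟩
  have hm0 : 0 < m := by omega
  have hnc : ∀ (p : ZMod n → Prop), {i : ZMod n | p i}.ncard = (univ.filter p).card := by
    intro p
    rw [← Set.ncard_coe_finset]
    congr 1
    ext i
    simp
  have hq0 : (0 : ℚ) < (m : ℚ) ^ l := by positivity
  have hdiv : (n : ℚ) / (m : ℚ) ^ l ≤ k ↔ n ≤ k * m ^ l := by
    rw [div_le_iff₀ hq0]
    exact_mod_cast Iff.rfl
  rw [hmA, hdiv]
  constructor
  · rintro ⟨a, hb, hg⟩
    have hA0 : Nonempty A := by
      rw [← Finite.card_pos_iff, hmA]; exact hm0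
    obtain ⟨x⟩ := hA0
    refine ⟨⟨_, by rw [← hmA]; exact (hb x).symm⟩, ?_⟩
    have h1 : (univ : Finset (ZMod n)).card = ∑ w : Fin l → A, (univ.filter fun i : ZMod n =>
        (fun j : Fin l => a (i + ((j : ℕ) : ZMod n))) = w).card :=
      Finset.card_eq_sum_card_fiberwise
        (f := fun i : ZMod n => (fun j : Fin l => a (i + ((j : ℕ) : ZMod n))))
        (t := univ) (fun _ _ => by simp)
    rw [card_univ, ZMod.card] at h1
    have h2 : ∀ w : Fin l → A, (univ.filter fun i : ZMod n =>
        (fun j : Fin l => a (i + ((j : ℕ) : ZMod n))) = w).card ≤ k := by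
      intro w
      have h3 := hg w
      rw [hnc] at h3
      refine le_trans (le_of_eq ?_) h3
      congr 1
      ext i
      simp only [mem_filter, mem_univ, true_and, funext_iff]
    calc n = _ := h1
      _ ≤ ∑ w : Fin l → A, k := Finset.sum_le_sum fun w _ => h2 w
      _ = k * m ^ l := by
        rw [Finset.sum_const, card_univ, smul_eq_mul, mul_comm, Fintype.card_fun, Fintype.card_fin,
          ← Nat.card_eq_fintype_card, hmA]
  · rintro ⟨hmn, hle⟩
    obtain ⟨e⟩ : Nonempty (A ≃ ZMod m) := by
      rw [← Finite.card_eq, hmA, Nat.card_zmod]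
    have hmn' : m ≤ n := Nat.le_of_dvd (by omega) hmn
    have hlog : 0 < Nat.log m n := Nat.log_pos (by omega) hmn'
    obtain ⟨P, hP⟩ : ∃ P, min l (Nat.log m n) = P + 1 :=
      Nat.exists_eq_add_of_le' (le_min hl hlog)
    have hPl : P + 1 ≤ l := hP ▸ min_le_left _ _
    have hPlog : P + 1 ≤ Nat.log m n := hP ▸ min_le_right _ _
    have hpow : m ^ (P + 1) ≤ n :=
      (Nat.pow_le_pow_right hm0 hPlog).trans (Nat.pow_log_le_self m (by omega))
    have hp0 : 0 < m ^ (P + 1) := pow_pos hm0 _
    set q := n / m ^ (P + 1) with hqdef
    have hq1 : 1 ≤ q := (Nat.one_le_div_iff hp0).2 hpow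
    have hdvd : m ∣ n % m ^ (P + 1) :=
      (Nat.dvd_mod_iff (dvd_pow_self m (Nat.succ_ne_zero P))).2 hmn
    obtain ⟨N, hN⟩ := hdvd
    have hNlt : N < m ^ P := by
      have h1 := Nat.mod_lt n hp0
      rw [hN, pow_succ, mul_comm (m ^ P) m] at h1
      exact Nat.lt_of_mul_lt_mul_left h1
    have hn' : n = q * m ^ (P + 1) + m * N := by
      rw [← hN, hqdef, mul_comm]
      exact (Nat.div_add_mod n _).symm
    obtain ⟨E, a, hEc, ha1, ha2, ha3⟩ := core m P q N n hq1 hNlt hn'
    refine ⟨fun i => e.symm (a i), fun x => ?_, fun w => ?_⟩
    · rw [hmA, hnc]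
      have h1 : (univ.filter fun i : ZMod n => e.symm (a i) = x) =
          (univ.filter fun i => a i = e x) := by
        ext i
        simp only [mem_filter, mem_univ, true_and]
        exact Equiv.symm_apply_eq e
      rw [h1, ha1]
      conv_rhs => rw [hn']
      rw [pow_succ]
      ring
    · rw [hnc]
      refine le_trans (Finset.card_le_card (t := univ.filter fun i : ZMod n =>
        ∀ j : Fin l, a (i + ((j : ℕ) : ZMod n)) = e (w j)) ?_) ?_
      · intro i hi
        simp only [mem_filter, mem_univ, true_and, Equiv.symm_apply_eq] at hi ⊢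
        exact hi
      rcases Nat.eq_or_lt_of_le hPl with hl' | hl'
      · subst hl'
        rw [ha2 fun j => e (w j)]
        have h2 : q * m ^ (P + 1) ≤ k * m ^ (P + 1) := by
          refine le_trans ?_ hle
          conv_rhs => rw [hn']
          exact Nat.le_add_right _ _
        have h3 : q ≤ k := Nat.le_of_mul_le_mul_right h2 hp0
        rcases Nat.eq_zero_or_pos N with hN0 | hN0
        · have hE0 : E = ∅ := by
            rw [← Finset.card_eq_zero, hEc, hN0, mul_zero]
          rw [hE0]
          simpa using h3
        · have h4 : q * m ^ (P + 1) < k * m ^ (P + 1) := by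
            refine lt_of_lt_of_le ?_ hle
            conv_rhs => rw [hn']
            exact Nat.lt_add_of_pos_right (Nat.mul_pos hm0 hN0)
          have h5 : q < k := Nat.lt_of_mul_lt_mul_right h4
          split_ifs <;> omega
      · have hPeq : Nat.log m n = P + 1 := by
          rcases min_choice l (Nat.log m n) with h | h
          · omega
          · omega
        have hlt : n < m ^ (P + 1 + 1) := by
          have := Nat.lt_pow_succ_log_self (b := m) (by omega) n
          rwa [hPeq] at this
        have hqm : q < m := by
          rw [hqdef, Nat.div_lt_iff_lt_mul hp0, mul_comm, ← pow_succ]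
          exact hlt
        refine le_trans (Finset.card_le_one.2 fun i hi i' hi' => ?_) hk
        simp only [mem_filter, mem_univ, true_and] at hi hi'
        refine ha3 hqm i i' fun j hj => ?_
        have hjl : j < l := by omega
        rw [show a (i + j) = _ from hi ⟨j, hjl⟩, show a (i' + j) = _ from hi' ⟨j, hjl⟩]

end Pool.Agent.Results.MP_a9eae2_co.AllParameters
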